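import Pool.Agent.Hhelper36.LexOrder
import Pool.Agent.Hhelper36.OrderGraph

/-!
# Tree-like graphs with uncountable motion need not be 2-distinguishable

For every cardinal `lam` there are an uncountable cardinal `m ≥ lam` and a tree-like graph
`(G, w)` of motion exactly `m` and maximum degree at most `2 ^ m` such that every set of
vertices (indeed every colouring of the vertices with at most `lam` colours) is preserved by a
non-identity automorphism.
-/

set_option autoImplicit false

namespace Pool.Agent.Results.MP_53e992_co.NotTwoDist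

open Cardinal Set

universe u

/-- `(G, w)` is a tree-like graph: `G` is connected and every vertex `y` has a neighbour `x`
such that `y` lies on every shortest walk from `x` to the root `w`. -/
def TreeLike {V : Type u} (G : SimpleGraph V) (w : V) : Prop :=
  G.Connected ∧
    ∀ y, ∃ x, G.Adj y x ∧ ∀ p : G.Walk x w, p.length = G.dist x w → y ∈ p.support

open Pool.Agent.Hhelper36 in
theorem result (lam : Cardinal.{u}) :
    ∃ m : Cardinal.{u}, ℵ₀ < m ∧ lam ≤ m ∧
      ∃ (V : Type u) (G : SimpleGraph V) (w : V),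
        TreeLike G w ∧
        IsLeast {c : Cardinal.{u} |
          ∃ φ : G ≃g G, φ ≠ RelIso.refl G.Adj ∧ c = #{v : V // φ v ≠ v}} m ∧
        (⨆ v : V, #(G.neighborSet v)) ≤ 2 ^ m ∧
        (∀ S : Set V, ∃ φ : G ≃g G, φ ≠ RelIso.refl G.Adj ∧ φ '' S = S) ∧
        (∀ C : Type u, #C ≤ lam → ∀ c : V → C,
          ∃ φ : G ≃g G, φ ≠ RelIso.refl G.Adj ∧ ∀ v, c (φ v) = c v) := by
  classical
  set μ : Cardinal.{u} := max ℵ₀ ((max 2 lam) ^ (ℵ₀ : Cardinal.{u})) with hμ
  set κ : Cardinal.{u} := Order.succ μ with hκdef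
  have hκ : κ.IsRegular := isRegular_succ (le_max_left _ _)
  have := LexOrder.ord_noMax hκ
  have hneW : Nonempty κ.ord.ToType := by
    rw [Ordinal.nonempty_toType_iff]
    exact hκ.ord_pos.ne'
  obtain ⟨w0⟩ := hneW
  set L := LexOrder.LL κ.ord.ToType with hL
  have hneL : Nonempty L := ⟨LexOrder.single w0⟩
  have hshift := LexOrder.ord_shift hκ
  have hmin : NoMinOrder L := by
    refine ⟨fun x => ?_⟩
    obtain ⟨v, hv⟩ := x.2
    obtain ⟨E, -, hE, -⟩ := LexOrder.exists_emb hshift v ∅ {x} (by simp)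
      (by rintro _ rfl; exact hv) (by simp)
    exact ⟨E x, (hE x).2 x rfl⟩
  have hκL : κ ≤ #L := by
    have := mk_le_of_injective (LexOrder.single_injective (W := κ.ord.ToType))
    rwa [mk_ord_toType] at this
  have hμκ : μ < κ := Order.lt_succ μ
  have hinf : ℵ₀ < #L := ((le_max_left _ _).trans_lt hμκ).trans_le hκL
  have hlam : lam ≤ #L := by
    refine le_trans ?_ hκL
    refine le_trans ?_ hμκ.le
    calc lam ≤ max 2 lam := le_max_right _ _
      _ ≤ (max 2 lam) ^ (ℵ₀ : Cardinal.{u}) := self_le_power _ one_le_aleph0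
      _ ≤ μ := le_max_right _ _
  have hmoved := OrderGraph.moved_eq (L := L) (LexOrder.exists_emb_between hshift) hinf.le
  have hcard : #(Option (L × Bool × ℕ)) = #L := by
    have h1 : #(L × Bool × ℕ) = #L := by
      have : #(Bool × ℕ) = ℵ₀ := mk_eq_aleph0 _
      rw [mk_prod, this, lift_aleph0, lift_uzero]
      exact mul_aleph0_eq hinf.le
    rw [mk_option, h1]
    exact add_one_eq hinf.le
  -- colourings with at most `max 2 lam` colours
  have hcol : ∀ C : Type u, #C ≤ max 2 lam → ∀ c : Option (L × Bool × ℕ) → C,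
      ∃ φ : OrderGraph.TG L ≃g OrderGraph.TG L,
        φ ≠ RelIso.refl (OrderGraph.TG L).Adj ∧ ∀ v, c (φ v) = c v := by
    intro C hC c
    have hK : #(Bool × ℕ → C) < κ := by
      refine lt_of_le_of_lt ?_ hμκ
      have h1 : #(Bool × ℕ) = ℵ₀ := mk_eq_aleph0 _
      rw [mk_arrow, h1, lift_aleph0, lift_uzero]
      exact (power_le_power_right hC).trans (le_max_right _ _)
    obtain ⟨f, ⟨x, hx⟩, hf⟩ := LexOrder.main_order hκ hK (fun x p => c (some (x, p)))
    refine ⟨OrderGraph.indAut f, ?_, ?_⟩
    · intro h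
      have h1 : OrderGraph.indAut f (some (x, false, 0)) = some (x, false, 0) := by
        rw [h]; rfl
      rw [OrderGraph.indAut_some] at h1
      simp only [Option.some.injEq, Prod.mk.injEq, and_true] at h1
      exact hx h1
    · intro v
      rcases v with _ | ⟨y, t, n⟩
      · rfl
      · exact congrFun (hf y) (t, n)
  refine ⟨#L, hinf, hlam, Option (L × Bool × ℕ), OrderGraph.TG L, none, ?_, ?_, ?_, ?_, ?_⟩
  · exact ⟨OrderGraph.connected, OrderGraph.treeLike_aux⟩
  · constructor
    · obtain ⟨φ, hφ, -⟩ := hcol PUnit (by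
        rw [mk_punit]
        exact (by norm_num : (1 : Cardinal.{u}) ≤ 2).trans (le_max_left _ _)) (fun _ => PUnit.unit)
      exact ⟨φ, hφ, (hmoved φ hφ).symm⟩
    · rintro c ⟨φ, hφ, rfl⟩
      exact (hmoved φ hφ).ge
  · refine ciSup_le' (fun v => ?_)
    calc #((OrderGraph.TG L).neighborSet v) ≤ #(Option (L × Bool × ℕ)) := mk_set_le _
      _ = #L := hcard
      _ ≤ 2 ^ #L := (cantor _).le
  · intro S
    obtain ⟨φ, hφ, hc⟩ := hcol (ULift.{u} Bool) (by
      rw [mk_uLift, mk_bool]
      simp) (fun v => ULift.up (decide (v ∈ S)))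
    refine ⟨φ, hφ, ?_⟩
    have hmem : ∀ v, φ v ∈ S ↔ v ∈ S := by
      intro v
      have := hc v
      simpa using this
    ext v
    constructor
    · rintro ⟨u, hu, rfl⟩
      exact (hmem u).mpr hu
    · intro hv
      refine ⟨φ.symm v, ?_, by simp⟩
      rw [← hmem]
      simpa using hv
  · intro C hC c
    exact hcol C (hC.trans (le_max_right _ _)) c

end Pool.Agent.Results.MP_53e992_co.NotTwoDist
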